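import Pool.Agent.MWL.Stmts

/-!
# Block MWL (MP_23468a_al), row PRM: the base vectors are minimal
-/

set_option autoImplicit false

namespace Pool.Agent.MWL.H88

open Pool.Agent.MVO Pool.Agent.Helper14_MV Pool.Agent.Helper2_MV

theorem lb_D (l j : ℕ) : lb (fun j => if j ≤ l then 1 else 2) j = j := by
  unfold lb
  rw [Finset.filter_true_of_mem]
  · exact Finset.card_range j
  · intro i _
    show (if i ≤ l then 1 else 2) ≠ 0
    split_ifs <;> norm_num

theorem prm (_ : HvpStmt) (harr : ArrStmt) (hta1 : Ta1Stmt) (hta2 : Ta2Stmt) : PrmStmt := by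
  intro n R hR β hβ j hj hab
  obtain ⟨-, -, -, hDD, -, -⟩ := harr n R hR
  cases β with
  | E =>
    have hj1 : j ≤ 1 := hj
    interval_cases j
    · left
      refine ⟨?_, 0, le_rfl, ?_⟩
      · show v2 2 0 0 ≠ 0
        simp [v2]
      · show 2 ≤ v2 2 0 0
        simp [v2]
    · right
      exact hab
  | F =>
    have hj1 : j ≤ 2 := hj
    interval_cases j
    · left
      refine ⟨?_, 0, le_rfl, ?_⟩
      · show v3 2 0 2 0 ≠ 0
        simp [v3]
      · show 2 ≤ v3 2 0 2 0
        simp [v3]
    · right
      exact hab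
    · left
      refine ⟨?_, 2, le_rfl, ?_⟩
      · show v3 2 0 2 2 ≠ 0
        simp [v3]
      · show 2 ≤ v3 2 0 2 2
        simp [v3]
  | G =>
    have hj1 : j ≤ 1 := hj
    interval_cases j
    · right
      exact hab
    · left
      refine ⟨?_, 1, le_rfl, ?_⟩
      · show v2 0 2 1 ≠ 0
        simp [v2]
      · show 2 ≤ v2 0 2 1
        simp [v2]
  | D l =>
    have hj1 : j ≤ l + 1 := hj
    rcases Nat.lt_or_ge l j with h | h
    · left
      refine ⟨?_, j, le_rfl, ?_⟩
      · show (if j ≤ l then 1 else 2) ≠ 0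
        split_ifs <;> norm_num
      · show 2 ≤ (if j ≤ l then 1 else 2)
        rw [if_neg (by omega)]
    · right
      have h1 := (hta1 n R hR (l + 1) (fun j => if j ≤ l then 1 else 2) j hj1).2.2.2
        (if_pos h) (fun p hp => by
          show (if p ≤ l then 1 else 2) ≤ 1
          rw [if_pos (hp.trans h)]) ⟨l + 1, by omega, le_rfl, by
          show 2 ≤ (if l + 1 ≤ l then 1 else 2)
          rw [if_neg (by omega)]⟩
      rw [lb_D] at h1
      have h2 : Has n R (Bit.D j) := h1.1 hab
      have h3 : ∀ m, Has n R (Bit.D (j + m)) := by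
        intro m
        induction m with
        | zero => exact h2
        | succ m ih => exact hDD _ ih
      have h4 := h3 (l - j)
      rwa [Nat.add_sub_cancel' h] at h4
  | J q =>
    right
    have hq : 2 ≤ q := hβ
    have hdeg : deg (q - 1) (fun _ => 1) = q := by
      unfold deg
      simp
      omega
    have h1 := (hta2 n R hR (q - 1) (fun _ => 1) j hj (fun _ _ => le_rfl)
      (by rw [hdeg]; exact hq)).1 rfl
    have h2 := (h1.1 hab).1
    rwa [hdeg] at h2

end Pool.Agent.MWL.H88
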